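import Pool.Agent.Y6.F.Chn

/-!
Local bounds for the chain.
-/

open Set Filter Topology
open scoped ComplexConjugate

set_option autoImplicit false

namespace Pool.Agent.Y614.EF.Locr

open Pool.Agent.Y6.M (cX cY Uth εc x0)
open Pool.Agent.Y6.F

lemma al_ge {α : ℕ → ℝ} {G : ℕ → ℂ} {b d : ℕ → ℝ} (h : ChnF α G b d) (n : ℕ) :
    24 ≤ α n := by
  induction n with
  | zero => exact le_trans (by norm_num) h.A0
  | succ n ih =>
    rw [h.step n]
    have h1 : (1:ℝ) ≤ α n := by linarith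
    calc (24:ℝ) ≤ α n := ih
      _ = α n ^ 1 := (pow_one _).symm
      _ ≤ α n ^ (2*n+60) := pow_le_pow_right₀ h1 (by omega)

lemma drain {a : ℝ} (ha : 24 ≤ a) (n : ℕ) :
    24 * a * (a ^ (2 * (n + 1) + 60))⁻¹ ≤ (a ^ (n + 1 + 1))⁻¹ := by
  have hp : 0 < a := by linarith
  rw [← div_eq_mul_inv, inv_eq_one_div, div_le_div_iff₀ (by positivity) (by positivity)]
  calc 24 * a * a ^ (n+1+1) ≤ a * a * a^(n+1+1) := by gcongr
    _ = a ^ (n + 4) := by ring
    _ ≤ a ^ (2*(n+1)+60) := pow_le_pow_right₀ (by linarith) (by omega)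
    _ = 1 * _ := (one_mul _).symm

/-- the values are below the running maximum -/
lemma le_mx {α : ℕ → ℝ} {x y : ℕ → ℝ → ℂ} {e : ℝ}
    (h1 : ∀ n, ∀ t ∈ Icc 0 e, ‖x n t‖ ≤ 1 ∧ ‖y n t‖ ≤ 1) (n : ℕ) {r t : ℝ}
    (hr : r ∈ Icc 0 t) (ht : t ≤ e) :
    max ‖x (n + 1) r‖ ‖y n r‖ ≤ Mx α x y (n + 1) t := by
  refine le_trans ?_ (le_max_right _ _)
  refine le_csSup ⟨1, ?_⟩ ⟨r, hr, rfl⟩
  rintro _ ⟨q, hq, rfl⟩
  exact max_le (h1 (n + 1) q ⟨hq.1, hq.2.trans ht⟩).1 (h1 n q ⟨hq.1, hq.2.trans ht⟩).2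

lemma mx_le {α : ℕ → ℝ} {x y : ℕ → ℝ → ℂ} (n : ℕ) {t B : ℝ} (ht : 0 ≤ t)
    (hB : εc α (n + 1) ≤ B) (h : ∀ r ∈ Icc 0 t, max ‖x (n + 1) r‖ ‖y n r‖ ≤ B) :
    Mx α x y (n + 1) t ≤ B := by
  refine max_le hB (csSup_le ⟨_, 0, ⟨le_rfl, ht⟩, rfl⟩ ?_)
  rintro _ ⟨q, hq, rfl⟩
  exact h q hq

lemma mx_mono {α : ℕ → ℝ} {x y : ℕ → ℝ → ℂ} {e : ℝ}
    (h1 : ∀ n, ∀ t ∈ Icc 0 e, ‖x n t‖ ≤ 1 ∧ ‖y n t‖ ≤ 1) (n : ℕ) {r t : ℝ}
    (hr : 0 ≤ r) (hrt : r ≤ t) (ht : t ≤ e) :
    Mx α x y n r ≤ Mx α x y n t := by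
  cases n with
  | zero => exact le_rfl
  | succ n =>
    exact mx_le n hr (le_max_left _ _) fun q hq => le_mx h1 n ⟨hq.1, hq.2.trans hrt⟩ ht

lemma norm_le_mx {α : ℕ → ℝ} {x y : ℕ → ℝ → ℂ} {e : ℝ}
    (h1 : ∀ n, ∀ t ∈ Icc 0 e, ‖x n t‖ ≤ 1 ∧ ‖y n t‖ ≤ 1) (n : ℕ) {t : ℝ}
    (ht0 : 0 ≤ t) (ht : t ≤ e) : ‖x n t‖ ≤ Mx α x y n t := by
  cases n with
  | zero => exact (h1 0 t ⟨ht0, ht⟩).1
  | succ n => exact le_trans (le_max_left _ _) (le_mx h1 n ⟨ht0, le_rfl⟩ ht)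

lemma kr_le {α : ℕ → ℝ} {G : ℕ → ℂ} {b d : ℕ → ℝ} (h : ChnF α G b d) (n : ℕ) :
    κr α (n + 1) ≤ 1 := by
  have := al_ge h n
  exact inv_le_one_of_one_le₀ (one_le_pow₀ (by linarith))

/-- bound of the vector field of `x (n + 1)` -/
lemma bx {α : ℕ → ℝ} {G : ℕ → ℂ} {b d : ℕ → ℝ} (h : ChnF α G b d) {x y f g : ℕ → ℝ → ℂ}
    {e : ℝ} (h1 : ∀ n, ∀ t ∈ Icc 0 e, ‖x n t‖ ≤ 1 ∧ ‖y n t‖ ≤ 1) (hC : Cnd α x y e)
    (hP : Prt α x y f g e) (n : ℕ) {t : ℝ} (ht : t ∈ Icc 0 e) {B : ℝ}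
    (hB : α n * Mx α x y n t ≤ B) :
    ‖cX G b d (fun m => x m t) (fun m => y m t) (n + 1) + f (n + 1) t‖ ≤
      (3 * B + 2) * Mx α x y (n + 1) t := by
  have hMx : 0 ≤ Mx α x y (n + 1) t := le_trans (norm_nonneg _) (norm_le_mx h1 (n + 1) ht.1 ht.2)
  have ha := al_ge h (n + 1)
  have ha0 := al_ge h n
  have hb0 : 0 < b n := lt_of_lt_of_le (h.dpos n) (h.db n)
  have hd1 := h.dpos (n + 1)
  have hb1 : 0 < b (n + 1) := lt_of_lt_of_le (h.dpos (n + 1)) (h.db (n + 1))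
  -- first term
  have e1 : ‖conj (G n) * (b n : ℝ) * y n t * conj (x n t)‖ ≤ 3 * B * Mx α x y (n + 1) t := by
    rw [norm_mul, norm_mul, norm_mul, RCLike.norm_conj, RCLike.norm_conj, Complex.norm_real,
      Real.norm_of_nonneg hb0.le]
    have hy : ‖y n t‖ ≤ Mx α x y (n + 1) t :=
      le_trans (le_max_right _ _) (le_mx h1 n ⟨ht.1, le_rfl⟩ ht.2)
    have hx : ‖x n t‖ ≤ Mx α x y n t := norm_le_mx h1 n ht.1 ht.2
    have h3 : α n * ‖x n t‖ ≤ B := le_trans (mul_le_mul_of_nonneg_left hx (by linarith)) hB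
    calc ‖G n‖ * b n * ‖y n t‖ * ‖x n t‖ ≤ 3 * α n * ‖y n t‖ * ‖x n t‖ := by
          have := h.hi n
          exact mul_le_mul_of_nonneg_right (mul_le_mul_of_nonneg_right this (norm_nonneg _))
            (norm_nonneg _)
      _ = 3 * (α n * ‖x n t‖) * ‖y n t‖ := by ring
      _ ≤ 3 * B * Mx α x y (n + 1) t := by
          have : 0 ≤ α n * ‖x n t‖ := mul_nonneg (by linarith) (norm_nonneg _)
          have hB0 : 0 ≤ B := this.trans h3
          gcongr
  -- second term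
  have e2 : ‖conj (G (n + 1)) * (b (n + 1) + d (n + 1) : ℝ) * y (n + 1) t *
      conj (x (n + 2) t)‖ ≤ Mx α x y (n + 1) t := by
    rw [norm_mul, norm_mul, norm_mul, RCLike.norm_conj, RCLike.norm_conj, Complex.norm_real,
      Real.norm_of_nonneg (by linarith)]
    obtain ⟨hx, hy⟩ := hC (n + 1) t ht
    have hG : ‖G (n + 1)‖ * (b (n + 1) + d (n + 1)) ≤ 6 * α (n + 1) := by
      have := h.hi (n + 1)
      have h2 : ‖G (n + 1)‖ * d (n + 1) ≤ ‖G (n + 1)‖ * b (n + 1) :=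
        mul_le_mul_of_nonneg_left (h.db (n + 1)) (norm_nonneg _)
      rw [mul_add]; linarith
    have hU : 0 ≤ Uth α (n + 1 + 1) := by unfold Uth; positivity
    have hU2 : Uth α (n + 1 + 1) * Uth α (n + 1 + 1) = (α (n + 1 + 1))⁻¹ := by
      unfold Uth
      rw [← mul_inv, Real.mul_self_sqrt]
      have := al_ge h (n + 1 + 1)
      linarith
    calc ‖G (n + 1)‖ * (b (n + 1) + d (n + 1)) * ‖y (n + 1) t‖ * ‖x (n + 2) t‖
        ≤ 6 * α (n + 1) * (2 * Uth α (n + 1 + 1)) * (2 * Uth α (n + 1 + 1)) := by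
          gcongr
      _ = 24 * α (n + 1) * (Uth α (n + 1 + 1) * Uth α (n + 1 + 1)) := by ring
      _ = 24 * α (n + 1) * (α (n + 1) ^ (2 * (n + 1) + 60))⁻¹ := by rw [hU2, h.step (n + 1)]
      _ ≤ (α (n + 1) ^ (n + 1 + 1))⁻¹ := drain ha n
      _ ≤ Mx α x y (n + 1) t := le_max_left _ _
  -- third term
  have e3 : ‖f (n + 1) t‖ ≤ Mx α x y (n + 1) t := by
    refine le_trans (hP (n + 1) t ht).1 ?_
    calc κr α (n + 1) * Mx α x y (n + 1) t ≤ 1 * Mx α x y (n + 1) t := by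
          gcongr; exact kr_le h n
      _ = _ := one_mul _
  calc ‖cX G b d (fun m => x m t) (fun m => y m t) (n + 1) + f (n + 1) t‖
      ≤ ‖conj (G n) * (b n : ℝ) * y n t * conj (x n t)‖ +
        ‖conj (G (n + 1)) * (b (n + 1) + d (n + 1) : ℝ) * y (n + 1) t * conj (x (n + 2) t)‖ +
        ‖f (n + 1) t‖ := by
        refine le_trans (norm_add_le _ _) (add_le_add ?_ le_rfl)
        exact norm_sub_le _ _
    _ ≤ 3 * B * Mx α x y (n + 1) t + Mx α x y (n + 1) t + Mx α x y (n + 1) t := by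
        gcongr
    _ = _ := by ring

/-- bound of the vector field of `y n` -/
lemma by' {α : ℕ → ℝ} {G : ℕ → ℂ} {b d : ℕ → ℝ} (h : ChnF α G b d) {x y f g : ℕ → ℝ → ℂ}
    {e : ℝ} (h1 : ∀ n, ∀ t ∈ Icc 0 e, ‖x n t‖ ≤ 1 ∧ ‖y n t‖ ≤ 1)
    (hP : Prt α x y f g e) (n : ℕ) {t : ℝ} (ht : t ∈ Icc 0 e) {B : ℝ}
    (hB : α n * Mx α x y n t ≤ B) :
    ‖cY G d (fun m => x m t) n + g n t‖ ≤ (3 * B + 2) * Mx α x y (n + 1) t := by
  have hMx : 0 ≤ Mx α x y (n + 1) t := le_trans (norm_nonneg _) (norm_le_mx h1 (n + 1) ht.1 ht.2)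
  have ha0 := al_ge h n
  have hd0 := h.dpos n
  have e1 : ‖G n * (d n : ℝ) * x n t * x (n + 1) t‖ ≤ 3 * B * Mx α x y (n + 1) t := by
    rw [norm_mul, norm_mul, norm_mul, Complex.norm_real, Real.norm_of_nonneg hd0.le]
    have hy : ‖x (n + 1) t‖ ≤ Mx α x y (n + 1) t := norm_le_mx h1 (n + 1) ht.1 ht.2
    have hx : ‖x n t‖ ≤ Mx α x y n t := norm_le_mx h1 n ht.1 ht.2
    have h3 : α n * ‖x n t‖ ≤ B := le_trans (mul_le_mul_of_nonneg_left hx (by linarith)) hB
    have hG : ‖G n‖ * d n ≤ 3 * α n :=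
      le_trans (mul_le_mul_of_nonneg_left (h.db n) (norm_nonneg _)) (h.hi n)
    calc ‖G n‖ * d n * ‖x n t‖ * ‖x (n + 1) t‖ ≤ 3 * α n * ‖x n t‖ * ‖x (n + 1) t‖ := by
          gcongr
      _ = 3 * (α n * ‖x n t‖) * ‖x (n + 1) t‖ := by ring
      _ ≤ 3 * B * Mx α x y (n + 1) t := by
          have : 0 ≤ α n * ‖x n t‖ := mul_nonneg (by linarith) (norm_nonneg _)
          have hB0 : 0 ≤ B := this.trans h3
          gcongr
  have e3 : ‖g n t‖ ≤ Mx α x y (n + 1) t := by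
    refine le_trans (hP n t ht).2 ?_
    calc κr α (n + 1) * Mx α x y (n + 1) t ≤ 1 * Mx α x y (n + 1) t := by
          gcongr; exact kr_le h n
      _ = _ := one_mul _
  calc ‖cY G d (fun m => x m t) n + g n t‖
      ≤ ‖G n * (d n : ℝ) * x n t * x (n + 1) t‖ + ‖g n t‖ := norm_add_le _ _
    _ ≤ 3 * B * Mx α x y (n + 1) t + Mx α x y (n + 1) t := by
        gcongr
    _ ≤ _ := by nlinarith

/-- growth of one level -/
lemma lvl {α : ℕ → ℝ} {G : ℕ → ℂ} {b d : ℕ → ℝ} (h : ChnF α G b d) {x y f g : ℕ → ℝ → ℂ}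
    {N : ℕ} {s e : ℝ} (hs : 0 ≤ s) (hD : DSol G b d N 0 e x y f g) (hC : Cnd α x y e)
    (hP : Prt α x y f g e) (n : ℕ) (hn : n < N) {B t : ℝ} (hst : s ≤ t) (hte : t ≤ e)
    (hB : ∀ r ∈ Icc s t, α n * Mx α x y n r ≤ B) (hBt : (3 * B + 2) * (t - s) ≤ 1 / 2)
    (hB0 : 0 ≤ B) :
    Mx α x y (n + 1) t ≤ 2 * Mx α x y (n + 1) s := by
  have h1 := hD.one
  have ht0 : 0 ≤ t := hs.trans hst
  have hMt : 0 ≤ Mx α x y (n + 1) t := le_trans (norm_nonneg _) (norm_le_mx h1 (n + 1) ht0 hte)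
  set K : ℝ := (3 * B + 2) * Mx α x y (n + 1) t with hK
  have hsub : Icc s t ⊆ Icc 0 e := Icc_subset_Icc hs hte
  have hK0 : 0 ≤ K := by positivity
  have hm : ∀ r ∈ Icc s t, (3 * B + 2) * Mx α x y (n + 1) r ≤ K := by
    intro r hr
    have := mx_mono (α := α) h1 (n + 1) (hs.trans hr.1) hr.2 hte
    rw [hK]
    gcongr
  have key : Mx α x y (n + 1) t ≤ Mx α x y (n + 1) s + K * (t - s) := by
    refine mx_le n ht0 ?_ ?_
    · have : εc α (n + 1) ≤ Mx α x y (n + 1) s := le_max_left _ _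
      have h2 : 0 ≤ K * (t - s) := mul_nonneg hK0 (by linarith)
      linarith
    · intro r hr
      have h2 : 0 ≤ K * (t - s) := mul_nonneg hK0 (by linarith)
      rcases le_total r s with hrs | hrs
      · have := le_mx (α := α) h1 n (r := r) (t := s) ⟨hr.1, hrs⟩ (hst.trans hte)
        linarith
      · have hss := le_mx (α := α) h1 n (r := s) (t := s) ⟨hs, le_rfl⟩ (hst.trans hte)
        have hr' : r ∈ Icc s t := ⟨hrs, hr.2⟩
        have h3 : K * ‖r - s‖ ≤ K * (t - s) := by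
          rw [Real.norm_of_nonneg (by linarith)]
          gcongr
          exact hr.2
        refine max_le ?_ ?_
        · have := Convex.norm_image_sub_le_of_norm_hasDerivWithin_le (f := x (n + 1))
            (f' := fun r => cX G b d (fun m => x m r) (fun m => y m r) (n + 1) + f (n + 1) r)
            (C := K) (s := Icc s t) (x := s) (y := r)
            (fun q hq => (hD.dx (n + 1) hn q (hsub hq)).mono hsub)
            (fun q hq => (bx h h1 hC hP n (hsub hq) (hB q hq)).trans (hm q hq))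
            (convex_Icc s t) ⟨le_rfl, hst⟩ hr'
          have h4 : ‖x (n + 1) r‖ ≤ ‖x (n + 1) s‖ + ‖x (n + 1) r - x (n + 1) s‖ := by
            have := norm_add_le (x (n + 1) s) (x (n + 1) r - x (n + 1) s)
            rwa [add_sub_cancel] at this
          have h5 : ‖x (n + 1) s‖ ≤ Mx α x y (n + 1) s := le_trans (le_max_left _ _) hss
          linarith
        · have := Convex.norm_image_sub_le_of_norm_hasDerivWithin_le (f := y n)
            (f' := fun r => cY G d (fun m => x m r) n + g n r)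
            (C := K) (s := Icc s t) (x := s) (y := r)
            (fun q hq => (hD.dy n hn q (hsub hq)).mono hsub)
            (fun q hq => (by' h h1 hP n (hsub hq) (hB q hq)).trans (hm q hq))
            (convex_Icc s t) ⟨le_rfl, hst⟩ hr'
          have h4 : ‖y n r‖ ≤ ‖y n s‖ + ‖y n r - y n s‖ := by
            have := norm_add_le (y n s) (y n r - y n s)
            rwa [add_sub_cancel] at this
          have h5 : ‖y n s‖ ≤ Mx α x y (n + 1) s := le_trans (le_max_right _ _) hss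
          linarith
  have h6 : K * (t - s) ≤ 1 / 2 * Mx α x y (n + 1) t := by
    calc K * (t - s) = (3 * B + 2) * (t - s) * Mx α x y (n + 1) t := by rw [hK]; ring
      _ ≤ 1 / 2 * Mx α x y (n + 1) t := by gcongr
  linarith

theorem t_LOCR : Pool.Agent.Y6.F.S_LOCR := by
  intro α G b d h X
  set X' : ℝ := max X 1 with hX'
  have hX1 : 1 ≤ X' := le_max_right _ _
  have hXX : X ≤ X' := le_max_left _ _
  have hpos : 0 < 2 * (6 * X' + 2) := by positivity
  refine ⟨1 / (2 * (6 * X' + 2)), 2 * X', by positivity, ?_⟩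
  intro N s e x y f g hs hse he1 hed hD hx hy hC hP hX
  have h1 := hD.one
  have hδ : (6 * X' + 2) * (e - s) ≤ 1 / 2 := by
    have h2 : e - s ≤ 1 / (2 * (6 * X' + 2)) := by linarith
    calc (6 * X' + 2) * (e - s) ≤ (6 * X' + 2) * (1 / (2 * (6 * X' + 2))) := by gcongr
      _ = 1 / 2 := by field_simp
  -- on `[s, e]`
  have main : ∀ n, ∀ t ∈ Icc s e, α n * Mx α x y n t ≤ 2 * X' := by
    intro n
    induction n with
    | zero =>
      intro t _
      have := hX 0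
      have h2 : Mx α x y 0 t = Mx α x y 0 s := rfl
      rw [h2]
      linarith
    | succ n ih =>
      intro t ht
      have ha := al_ge h (n + 1)
      by_cases hn : n < N
      · have := lvl h hs hD hC hP n hn (B := 2 * X') ht.1 ht.2
          (fun r hr => ih r ⟨hr.1, hr.2.trans ht.2⟩)
          (by
            have h3 : (3 * (2 * X') + 2) * (t - s) ≤ (6 * X' + 2) * (e - s) := by
              have : t - s ≤ e - s := by linarith [ht.2]
              calc (3 * (2 * X') + 2) * (t - s) = (6 * X' + 2) * (t - s) := by ring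
                _ ≤ (6 * X' + 2) * (e - s) := by gcongr
            linarith) (by linarith)
        have h4 := hX (n + 1)
        calc α (n + 1) * Mx α x y (n + 1) t ≤ α (n + 1) * (2 * Mx α x y (n + 1) s) := by
              gcongr
          _ = 2 * (α (n + 1) * Mx α x y (n + 1) s) := by ring
          _ ≤ 2 * X' := by linarith
      · have hn' : N ≤ n := not_lt.mp hn
        have h5 : Mx α x y (n + 1) t ≤ εc α (n + 1) := by
          refine mx_le n (hs.trans ht.1) le_rfl ?_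
          intro r hr
          have hr' : r ∈ Icc 0 e := ⟨hr.1, hr.2.trans ht.2⟩
          rw [hx (n + 1) (by omega) r hr', hy n hn' r hr']
          have : 0 ≤ εc α (n + 1) := by
            unfold εc
            have : 0 < α (n + 1) := by linarith
            positivity
          simpa using this
        have h6 : α (n + 1) * εc α (n + 1) ≤ 1 := by
          unfold εc
          have hp : 0 < α (n + 1) := by linarith
          rw [← div_eq_mul_inv, div_le_one (by positivity)]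
          calc α (n + 1) = α (n + 1) ^ 1 := (pow_one _).symm
            _ ≤ α (n + 1) ^ (n + 1 + 1) := pow_le_pow_right₀ (by linarith) (by omega)
        calc α (n + 1) * Mx α x y (n + 1) t ≤ α (n + 1) * εc α (n + 1) := by gcongr
          _ ≤ 1 := h6
          _ ≤ 2 * X' := by linarith
  intro n t ht
  rcases le_total s t with hst | hst
  · exact main n t ⟨hst, ht.2⟩
  · have h7 := mx_mono (α := α) h1 n ht.1 hst hse
    have ha := al_ge h n
    calc α n * Mx α x y n t ≤ α n * Mx α x y n s := by gcongr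
      _ ≤ X := hX n
      _ ≤ 2 * X' := by linarith

end Pool.Agent.Y614.EF.Locr
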